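import Pool.Agent.Y466.TQ.Stm

/-! # The antisymmetric function on `m` blocks of four indices: its Gram matrix -/

set_option autoImplicit false
set_option synthInstance.maxSize 100000

namespace Pool.Agent.Y780.TQ

open Matrix
open scoped Kronecker
open Pool.Agent.Y466.TW (P Alt gram)
open Pool.Agent.Y466.TQ

lemma c4_12 : ∀ x y z t : Fin 4, c4 y x z t = -c4 x y z t := by decide +kernel

lemma c4_34 : ∀ x y z t : Fin 4, c4 x y t z = -c4 x y z t := by decide +kernel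

/-- first index of the `p`-th pair -/
def fa : Fin 6 → Fin 4 := ![0, 0, 0, 1, 1, 2]

/-- second index of the `p`-th pair -/
def fb : Fin 6 → Fin 4 := ![1, 2, 3, 2, 3, 3]

lemma fab_lt : ∀ p, fa p < fb p := by decide

lemma fab_inj : ∀ p q, fa p = fa q → fb p = fb q → p = q := by decide

lemma fab_surj : ∀ x y : Fin 4, x < y → ∃ p, fa p = x ∧ fb p = y := by decide

lemma c4_fab : ∀ p q : Fin 6, c4 (fa p) (fb p) (fa q) (fb q) = C p q := by decide +kernel

lemma E_12 {m : ℕ} (a b c d : I m) : E b a c d = -E a b c d := by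
  unfold E
  by_cases h : (ofLex a).1 = (ofLex b).1 ∧ (ofLex c).1 = (ofLex d).1
  · rw [if_pos ⟨h.1.symm, h.2⟩, if_pos h, ← h.1]
    split_ifs
    · exact c4_12 _ _ _ _
    · exact c4_34 _ _ _ _
    · simp
  · rw [if_neg (fun h' => h ⟨h'.1.symm, h'.2⟩), if_neg h, neg_zero]

lemma E_sw {m : ℕ} (a b c d : I m) : E c d a b = E a b c d := by
  unfold E
  by_cases h : (ofLex a).1 = (ofLex b).1 ∧ (ofLex c).1 = (ofLex d).1
  · rw [if_pos ⟨h.2, h.1⟩, if_pos h]
    rcases lt_trichotomy (ofLex a).1 (ofLex c).1 with h' | h' | h'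
    · rw [if_neg h'.asymm, if_pos h', if_pos h']
    · rw [if_neg h'.symm.not_lt, if_neg h'.not_lt, if_neg h'.not_lt, if_neg h'.symm.not_lt]
    · rw [if_pos h', if_neg h'.asymm, if_pos h']
  · rw [if_neg (fun h' => h ⟨h'.2, h'.1⟩), if_neg h]

lemma E_34 {m : ℕ} (a b c d : I m) : E a b d c = -E a b c d := by
  rw [← E_sw a b d c, E_12 c d a b, E_sw]

lemma E_ne {m : ℕ} (a b c d : I m) (h : ¬ ((ofLex a).1 = (ofLex b).1 ∧ (ofLex c).1 = (ofLex d).1)) :
    E a b c d = 0 := if_neg h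

lemma E_same {m : ℕ} (a b c d : I m) (h : (ofLex a).1 = (ofLex c).1) : E a b c d = 0 := by
  unfold E
  split_ifs with h1 h2 h3
  · exact absurd h2 (by rw [h]; exact lt_irrefl _)
  · exact absurd h3 (by rw [h]; exact lt_irrefl _)
  · rfl
  · rfl

lemma alt_w (m : ℕ) : Alt (w m) := by
  refine ⟨fun a b c d => ?_, fun a b c d => ?_, fun a b c d => ?_⟩
  · unfold w
    rw [E_12 a b c d, ← E_sw b c a d, ← E_sw b d a c]
    ring
  · unfold w
    rw [E_34 a d b c]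
    ring
  · unfold w
    rw [E_34 a b c d]
    ring

/-- the pairs of indices -/
def g (m : ℕ) : (Fin m × Fin 6) ⊕ (B m × (Fin 4 × Fin 4)) → P (I m)
  | .inl s => ⟨(toLex (s.1, fa s.2), toLex (s.1, fb s.2)),
      Prod.Lex.lt_iff.mpr (Or.inr ⟨rfl, fab_lt s.2⟩)⟩
  | .inr s => ⟨(toLex (s.1.1.1, s.2.1), toLex (s.1.1.2, s.2.2)),
      Prod.Lex.lt_iff.mpr (Or.inl s.1.2)⟩

lemma g_inj (m : ℕ) : Function.Injective (g m) := by
  rintro (⟨i, p⟩ | ⟨⟨⟨i, j⟩, hij⟩, ⟨x, y⟩⟩) (⟨i', p'⟩ | ⟨⟨⟨i', j'⟩, hij'⟩, ⟨x', y'⟩⟩) h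
  · have h0 := congrArg Subtype.val h
    simp only [g, Prod.mk.injEq, EmbeddingLike.apply_eq_iff_eq] at h0
    obtain ⟨⟨h1, h2⟩, h3, h4⟩ := h0
    rw [h1, fab_inj p p' h2 h4]
  · have h0 := congrArg Subtype.val h
    simp only [g, Prod.mk.injEq, EmbeddingLike.apply_eq_iff_eq] at h0
    obtain ⟨⟨h1, h2⟩, h3, h4⟩ := h0
    exact absurd hij' (by simp only [← h1, ← h3]; exact lt_irrefl _)
  · have h0 := congrArg Subtype.val h
    simp only [g, Prod.mk.injEq, EmbeddingLike.apply_eq_iff_eq] at h0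
    obtain ⟨⟨h1, h2⟩, h3, h4⟩ := h0
    exact absurd hij (by simp only [h1, h3]; exact lt_irrefl _)
  · have h0 := congrArg Subtype.val h
    simp only [g, Prod.mk.injEq, EmbeddingLike.apply_eq_iff_eq] at h0
    obtain ⟨⟨h1, h2⟩, h3, h4⟩ := h0
    subst h1 h2 h3 h4
    rfl

lemma g_surj (m : ℕ) : Function.Surjective (g m) := by
  rintro ⟨⟨a, b⟩, hab⟩
  rcases Prod.Lex.lt_iff.mp hab with h | ⟨h1, h2⟩
  · exact ⟨.inr (⟨((ofLex a).1, (ofLex b).1), h⟩, ((ofLex a).2, (ofLex b).2)), rfl⟩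
  · obtain ⟨p, hp1, hp2⟩ := fab_surj _ _ h2
    refine ⟨.inl ((ofLex a).1, p), ?_⟩
    apply Subtype.ext
    change (toLex ((ofLex a).1, fa p), toLex ((ofLex a).1, fb p)) = (a, b)
    rw [hp1, hp2, h1]
    have e1 : toLex ((ofLex b).1, (ofLex a).2) = a := by rw [← h1]; rfl
    rw [e1]
    rfl

lemma entry (m : ℕ) (s t : (Fin m × Fin 6) ⊕ (B m × (Fin 4 × Fin 4))) :
    gram (w m) (g m s) (g m t) = fromBlocks (Pu m) 0 0 ((1 : Matrix (B m) (B m) ℤ) ⊗ₖ M) s t := by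
  rcases s with ⟨i, p⟩ | ⟨⟨⟨i, j⟩, hij⟩, ⟨x, y⟩⟩ <;> rcases t with ⟨k, q⟩ | ⟨⟨⟨k, l⟩, hkl⟩, ⟨z, t⟩⟩
  · have e2 : E (toLex (i, fa p)) (toLex (k, fa q)) (toLex (i, fb p)) (toLex (k, fb q)) = 0 :=
      E_same _ _ _ _ rfl
    have e3 : E (toLex (i, fa p)) (toLex (k, fb q)) (toLex (i, fb p)) (toLex (k, fa q)) = 0 :=
      E_same _ _ _ _ rfl
    have e1 : E (toLex (i, fa p)) (toLex (i, fb p)) (toLex (k, fa q)) (toLex (k, fb q)) =
        Pu m (i, p) (k, q) := by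
      unfold E Pu
      rw [if_pos ⟨rfl, rfl⟩]
      change (if i < k then c4 (fa p) (fb p) (fa q) (fb q) else if k < i then
        c4 (fa q) (fb q) (fa p) (fb p) else 0) = (if i < k then C p q else if k < i then C q p else 0)
      rw [c4_fab, c4_fab]
    change E (toLex (i, fa p)) (toLex (i, fb p)) (toLex (k, fa q)) (toLex (k, fb q)) -
      E (toLex (i, fa p)) (toLex (k, fa q)) (toLex (i, fb p)) (toLex (k, fb q)) +
      E (toLex (i, fa p)) (toLex (k, fb q)) (toLex (i, fb p)) (toLex (k, fa q)) = Pu m (i, p) (k, q)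
    rw [e2, e3, e1, sub_zero, add_zero]
  · have hkl' : k < l := hkl
    have e1 : E (toLex (i, fa p)) (toLex (i, fb p)) (toLex (k, z)) (toLex (l, t)) = 0 :=
      E_ne _ _ _ _ (fun h => hkl'.ne h.2)
    have e2 : E (toLex (i, fa p)) (toLex (k, z)) (toLex (i, fb p)) (toLex (l, t)) = 0 :=
      E_ne _ _ _ _ (fun h => hkl'.ne (h.1.symm.trans h.2))
    have e3 : E (toLex (i, fa p)) (toLex (l, t)) (toLex (i, fb p)) (toLex (k, z)) = 0 :=
      E_ne _ _ _ _ (fun h => hkl'.ne (h.2.symm.trans h.1))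
    change E (toLex (i, fa p)) (toLex (i, fb p)) (toLex (k, z)) (toLex (l, t)) -
      E (toLex (i, fa p)) (toLex (k, z)) (toLex (i, fb p)) (toLex (l, t)) +
      E (toLex (i, fa p)) (toLex (l, t)) (toLex (i, fb p)) (toLex (k, z)) = 0
    rw [e1, e2, e3]
    ring
  · have hij' : i < j := hij
    have e1 : E (toLex (i, x)) (toLex (j, y)) (toLex (k, fa q)) (toLex (k, fb q)) = 0 :=
      E_ne _ _ _ _ (fun h => hij'.ne h.1)
    have e2 : E (toLex (i, x)) (toLex (k, fa q)) (toLex (j, y)) (toLex (k, fb q)) = 0 :=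
      E_ne _ _ _ _ (fun h => hij'.ne (h.1.trans h.2.symm))
    have e3 : E (toLex (i, x)) (toLex (k, fb q)) (toLex (j, y)) (toLex (k, fa q)) = 0 :=
      E_ne _ _ _ _ (fun h => hij'.ne (h.1.trans h.2.symm))
    change E (toLex (i, x)) (toLex (j, y)) (toLex (k, fa q)) (toLex (k, fb q)) -
      E (toLex (i, x)) (toLex (k, fa q)) (toLex (j, y)) (toLex (k, fb q)) +
      E (toLex (i, x)) (toLex (k, fb q)) (toLex (j, y)) (toLex (k, fa q)) = 0
    rw [e1, e2, e3]
    ring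
  · have hij' : i < j := hij
    have hkl' : k < l := hkl
    have e1 : E (toLex (i, x)) (toLex (j, y)) (toLex (k, z)) (toLex (l, t)) = 0 :=
      E_ne _ _ _ _ (fun h => hij'.ne h.1)
    have e3 : E (toLex (i, x)) (toLex (l, t)) (toLex (j, y)) (toLex (k, z)) = 0 :=
      E_ne _ _ _ _ (fun h => by
        have h1 : i = l := h.1
        have h2 : j = k := h.2
        rw [h1, h2] at hij'
        exact absurd hij' hkl'.asymm)
    change E (toLex (i, x)) (toLex (j, y)) (toLex (k, z)) (toLex (l, t)) -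
      E (toLex (i, x)) (toLex (k, z)) (toLex (j, y)) (toLex (l, t)) +
      E (toLex (i, x)) (toLex (l, t)) (toLex (j, y)) (toLex (k, z)) =
        (1 : Matrix (B m) (B m) ℤ) ⟨(i, j), hij⟩ ⟨(k, l), hkl⟩ * (-c4 x z y t)
    rw [e1, e3, Matrix.one_apply]
    by_cases h : i = k ∧ j = l
    · obtain ⟨rfl, rfl⟩ := h
      rw [if_pos rfl]
      have h4 : E (toLex (i, x)) (toLex (i, z)) (toLex (j, y)) (toLex (j, t)) = c4 x z y t := by
        unfold E
        rw [if_pos ⟨rfl, rfl⟩]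
        exact if_pos hij'
      rw [h4]
      ring
    · have e2 : E (toLex (i, x)) (toLex (k, z)) (toLex (j, y)) (toLex (l, t)) = 0 :=
        E_ne _ _ _ _ h
      rw [e2, if_neg (fun h' => h (by
        have := congrArg Subtype.val h'
        exact ⟨congrArg Prod.fst this, congrArg Prod.snd this⟩))]
      ring

theorem dec : DEC := by
  intro m
  refine ⟨alt_w m, (Equiv.ofBijective (g m) ⟨g_inj m, g_surj m⟩).symm, ?_⟩
  ext p q
  obtain ⟨s, rfl⟩ := g_surj m p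
  obtain ⟨t, rfl⟩ := g_surj m q
  rw [Matrix.submatrix_apply]
  have hs : (Equiv.ofBijective (g m) ⟨g_inj m, g_surj m⟩).symm (g m s) = s :=
    Equiv.ofBijective_symm_apply_apply _ _ _
  have ht : (Equiv.ofBijective (g m) ⟨g_inj m, g_surj m⟩).symm (g m t) = t :=
    Equiv.ofBijective_symm_apply_apply _ _ _
  rw [hs, ht]
  exact entry m s t

end Pool.Agent.Y780.TQ
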